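import Pool.Agent.RTF.Stmts

/-!
CSD: the quotient of the series finite on cosets by the series with vanishing coset sums has no
zero divisors.
-/

namespace Pool.Agent.RTF.H65

open Pool.Agent.CD Pool.Agent.RTF

noncomputable section

variable {G : Type} [Group G]

/-- The coset sum as a function of the coset. -/
def csq (F : SF G) (B : Subgroup G) (u : F.U) (c : G ⧸ B) : F2 :=
  ∑ᶠ x ∈ {x : G | (x : G ⧸ B) = c}, F.co u x

theorem cs_eq (F : SF G) (B : Subgroup G) (u : F.U) (g : G) :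
    cs F B u g = csq F B u (g : G ⧸ B) := by
  unfold cs csq
  have h : {x : G | g⁻¹ * x ∈ B} = {x : G | (x : G ⧸ B) = (g : G ⧸ B)} := by
    ext x
    change g⁻¹ * x ∈ B ↔ (x : G ⧸ B) = (g : G ⧸ B)
    rw [eq_comm, QuotientGroup.eq]
  rw [h]

/-- The support on a coset. -/
def sup (F : SF G) (B : Subgroup G) (u : F.U) (c : G ⧸ B) : Set G :=
  {x | F.co u x ≠ 0 ∧ (x : G ⧸ B) = c}

theorem sup_fin (F : SF G) (B : Subgroup G) (u : F.U) (hu : FinOn F B u) (c : G ⧸ B) :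
    (sup F B u c).Finite := by
  obtain ⟨g, rfl⟩ := QuotientGroup.mk_surjective c
  refine (hu g).subset ?_
  rintro x ⟨h1, h2⟩
  exact ⟨h1, by rw [← QuotientGroup.eq]; exact h2.symm⟩

theorem csq_eq (F : SF G) (B : Subgroup G) (u : F.U) (hu : FinOn F B u) (c : G ⧸ B) :
    csq F B u c = ∑ x ∈ (sup_fin F B u hu c).toFinset, F.co u x := by
  classical
  unfold csq
  refine finsum_mem_eq_sum_of_inter_support_eq _ ?_
  ext x
  simp only [Set.mem_inter_iff, Set.Finite.coe_toFinset, Function.mem_support, sup]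
  constructor
  · rintro ⟨h1, h2⟩
    exact ⟨⟨h2, h1⟩, h2⟩
  · rintro ⟨⟨h1, h2⟩, h3⟩
    exact ⟨h2, h1⟩

/-- The pairs with product in a given coset. -/
def prs (F : SF G) (B : Subgroup G) (u v : F.U) (p : G ⧸ B) : Set (G × G) :=
  {s | F.co u s.1 ≠ 0 ∧ F.co v s.2 ≠ 0 ∧ ((s.1 * s.2 : G) : G ⧸ B) = p}

/-- The pairs of cosets. -/
def cst (F : SF G) (B : Subgroup G) [B.Normal] (u v : F.U) (p : G ⧸ B) : Set (G ⧸ B) :=
  {c | (∃ a ∈ Function.support (F.co u), (a : G ⧸ B) = c) ∧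
    ∃ a ∈ Function.support (F.co v), (a : G ⧸ B) = c⁻¹ * p}

theorem cst_fin (hN : NeuStmt) (F : SF G) (B : Subgroup G) [B.Normal] (hB : F.o.Conv B)
    (u v : F.U) (p : G ⧸ B) : (cst F B u v p).Finite :=
  hN G F.o B hB _ _ (F.wo u) (F.wo v) p

theorem prs_fin (hN : NeuStmt) (F : SF G) (B : Subgroup G) [B.Normal] (hB : F.o.Conv B)
    (u v : F.U) (hu : FinOn F B u) (hv : FinOn F B v) (p : G ⧸ B) :
    (prs F B u v p).Finite := by
  have h1 := cst_fin hN F B hB u v p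
  have h2 : (⋃ c ∈ cst F B u v p, sup F B u c ×ˢ sup F B v (c⁻¹ * p)).Finite :=
    h1.biUnion fun c _ => (sup_fin F B u hu c).prod (sup_fin F B v hv _)
  refine h2.subset ?_
  rintro ⟨y, z⟩ ⟨hy, hz, hp⟩
  have hz2 : (z : G ⧸ B) = (y : G ⧸ B)⁻¹ * p := by
    rw [← hp, QuotientGroup.mk_mul, inv_mul_cancel_left]
  simp only [Set.mem_iUnion]
  exact ⟨(y : G ⧸ B), ⟨⟨y, hy, rfl⟩, z, hz, hz2⟩, ⟨hy, rfl⟩, hz, hz2⟩

theorem csq_mul_prs (hN : NeuStmt) (F : SF G) (B : Subgroup G) [B.Normal] (hB : F.o.Conv B)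
    (u v : F.U) (hu : FinOn F B u) (hv : FinOn F B v) (p : G ⧸ B) :
    csq F B (u * v) p =
      ∑ s ∈ (prs_fin hN F B hB u v hu hv p).toFinset, F.co u s.1 * F.co v s.2 := by
  classical
  set S := (prs_fin hN F B hB u v hu hv p).toFinset with hS
  have hmS : ∀ s : G × G, s ∈ S ↔ F.co u s.1 ≠ 0 ∧ F.co v s.2 ≠ 0 ∧
      ((s.1 * s.2 : G) : G ⧸ B) = p := fun s => by
    rw [hS, Set.Finite.mem_toFinset]; exact Iff.rfl
  have h1 : ∀ x : G, (x : G ⧸ B) = p → F.co (u * v) x =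
      ∑ s ∈ S with s.1 * s.2 = x, F.co u s.1 * F.co v s.2 := by
    intro x hx
    rw [F.co_mul]
    rw [finsum_eq_sum_of_support_subset (s := (S.filter fun s => s.1 * s.2 = x).image Prod.fst)]
    · rw [Finset.sum_image]
      · refine Finset.sum_congr rfl fun s hs => ?_
        have := (Finset.mem_filter.1 hs).2
        rw [← this, inv_mul_cancel_left]
      · intro s hs t ht hst
        have h3 := (Finset.mem_filter.1 hs).2
        have h4 := (Finset.mem_filter.1 ht).2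
        have h5 : s.2 = t.2 := by
          have : s.1 * s.2 = s.1 * t.2 := by rw [h3, hst, h4]
          exact mul_left_cancel this
        exact Prod.ext hst h5
    · intro y hy
      rw [Function.mem_support] at hy
      simp only [Finset.coe_image, Set.mem_image, Finset.mem_coe, Finset.mem_filter]
      refine ⟨(y, y⁻¹ * x), ⟨(hmS _).2 ⟨?_, ?_, ?_⟩, ?_⟩, rfl⟩
      · intro h; exact hy (by rw [h, zero_mul])
      · intro h; exact hy (by rw [h, mul_zero])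
      · rw [mul_inv_cancel_left, hx]
      · exact mul_inv_cancel_left _ _
  unfold csq
  have h2 : ∑ᶠ x ∈ {x : G | (x : G ⧸ B) = p}, F.co (u * v) x =
      ∑ x ∈ S.image (fun s => s.1 * s.2), F.co (u * v) x := by
    refine finsum_mem_eq_sum_of_inter_support_eq _ ?_
    ext x
    simp only [Set.mem_inter_iff, Finset.coe_image, Set.mem_image, Finset.mem_coe,
      Function.mem_support]
    constructor
    · rintro ⟨hx, hx2⟩
      refine ⟨?_, hx2⟩
      rw [h1 x hx] at hx2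
      obtain ⟨s, hs, -⟩ := Finset.exists_ne_zero_of_sum_ne_zero hx2
      exact ⟨s, (Finset.mem_filter.1 hs).1, (Finset.mem_filter.1 hs).2⟩
    · rintro ⟨⟨s, hs, rfl⟩, hx2⟩
      exact ⟨((hmS s).1 hs).2.2, hx2⟩
  rw [h2]
  have h3 : ∑ x ∈ S.image (fun s => s.1 * s.2), F.co (u * v) x =
      ∑ x ∈ S.image (fun s => s.1 * s.2),
        ∑ s ∈ S with s.1 * s.2 = x, F.co u s.1 * F.co v s.2 := by
    refine Finset.sum_congr rfl fun x hx => ?_
    obtain ⟨s, hs, rfl⟩ := Finset.mem_image.1 hx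
    exact h1 _ ((hmS s).1 hs).2.2
  rw [h3]
  exact Finset.sum_fiberwise_of_maps_to (fun s hs => Finset.mem_image_of_mem _ hs) _

/-- The product formula for coset sums. -/
theorem csq_mul (hN : NeuStmt) (F : SF G) (B : Subgroup G) [B.Normal] (hB : F.o.Conv B)
    (u v : F.U) (hu : FinOn F B u) (hv : FinOn F B v) (p : G ⧸ B) :
    csq F B (u * v) p =
      ∑ c ∈ (cst_fin hN F B hB u v p).toFinset, csq F B u c * csq F B v (c⁻¹ * p) := by
  classical
  rw [csq_mul_prs hN F B hB u v hu hv p]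
  set S := (prs_fin hN F B hB u v hu hv p).toFinset with hS
  have hmS : ∀ s : G × G, s ∈ S ↔ F.co u s.1 ≠ 0 ∧ F.co v s.2 ≠ 0 ∧
      ((s.1 * s.2 : G) : G ⧸ B) = p := fun s => by
    rw [hS, Set.Finite.mem_toFinset]; exact Iff.rfl
  have h1 : ∀ s ∈ S, (s.1 : G ⧸ B) ∈ (cst_fin hN F B hB u v p).toFinset := by
    intro s hs
    rw [Set.Finite.mem_toFinset]
    obtain ⟨a, b, c⟩ := (hmS s).1 hs
    refine ⟨⟨s.1, a, rfl⟩, s.2, b, ?_⟩
    rw [← c, QuotientGroup.mk_mul, inv_mul_cancel_left]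
  rw [← Finset.sum_fiberwise_of_maps_to h1]
  refine Finset.sum_congr rfl fun c _ => ?_
  rw [csq_eq F B u hu, csq_eq F B v hv, Finset.sum_mul_sum, ← Finset.sum_product']
  refine Finset.sum_congr ?_ fun _ _ => rfl
  ext ⟨y, z⟩
  simp only [Finset.mem_filter, Finset.mem_product, Set.Finite.mem_toFinset, sup,
    Set.mem_ofPred_eq, hmS]
  constructor
  · rintro ⟨⟨a, b, d⟩, rfl⟩
    refine ⟨⟨a, rfl⟩, b, ?_⟩
    rw [← d, QuotientGroup.mk_mul, inv_mul_cancel_left]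
  · rintro ⟨⟨a, rfl⟩, b, d⟩
    refine ⟨⟨a, b, ?_⟩, rfl⟩
    rw [QuotientGroup.mk_mul, d, mul_inv_cancel_left]

/-- A least coset with nonzero coset sum. -/
theorem least (F : SF G) (B : Subgroup G) (u : F.U) (hu : FinOn F B u) (h : ¬ CZ F B u) :
    ∃ g : G, csq F B u (g : G ⧸ B) ≠ 0 ∧ ∀ c : G ⧸ B, csq F B u c ≠ 0 →
      ∃ x : G, (x : G ⧸ B) = c ∧ (x = g ∨ F.o.pos (g⁻¹ * x)) := by
  classical
  have hex : ∀ c : G ⧸ B, csq F B u c ≠ 0 → ∃ x : G, F.co u x ≠ 0 ∧ (x : G ⧸ B) = c := by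
    intro c hc
    rw [csq_eq F B u hu] at hc
    obtain ⟨x, hx, -⟩ := Finset.exists_ne_zero_of_sum_ne_zero hc
    rw [Set.Finite.mem_toFinset] at hx
    exact ⟨x, hx.1, hx.2⟩
  set A : Set G := {x | F.co u x ≠ 0 ∧ csq F B u (x : G ⧸ B) ≠ 0} with hA
  have hwf : A.WellFoundedOn F.o.lt := (F.wo u).subset fun x hx => hx.1
  have hne : A.Nonempty := by
    unfold CZ at h
    push Not at h
    obtain ⟨g, hg⟩ := h
    rw [cs_eq] at hg
    obtain ⟨x, hx, hxg⟩ := hex _ hg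
    exact ⟨x, hx, by rw [hxg]; exact hg⟩
  obtain ⟨g, hg, hmin⟩ := hwf.has_min (Set.univ : Set A) ⟨⟨hne.some, hne.some_mem⟩, trivial⟩
  refine ⟨g.1, g.2.2, fun c hc => ?_⟩
  obtain ⟨x, hx, rfl⟩ := hex c hc
  refine ⟨x, rfl, ?_⟩
  have h2 := hmin ⟨x, hx, hc⟩ trivial
  by_cases h3 : x = g.1
  · exact Or.inl h3
  · right
    have h4 : g.1⁻¹ * x ≠ 1 := fun h5 => h3 (by rw [inv_mul_eq_one] at h5; exact h5.symm)
    rcases F.o.tot h4 with h5 | h5
    · exact h5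
    · exfalso
      apply h2
      rw [mul_inv_rev, inv_inv] at h5
      exact h5

/-- CSD -/
theorem csd (hN : NeuStmt) : CsdStmt := by
  intro G _ F B hBn hB u v hu hv hu0 hv0 hz
  classical
  obtain ⟨g, hg, hgm⟩ := least F B u hu hu0
  obtain ⟨h, hh, hhm⟩ := least F B v hv hv0
  have h1 := hz (g * h)
  rw [cs_eq, csq_mul hN F B hB u v hu hv] at h1
  have hc : ∀ c : G ⧸ B, c ≠ (g : G ⧸ B) →
      csq F B u c * csq F B v (c⁻¹ * ((g * h : G) : G ⧸ B)) = 0 := by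
    intro c hc
    by_contra h2
    obtain ⟨h3, h4⟩ := mul_ne_zero_iff.1 h2
    obtain ⟨x, hx, hx2⟩ := hgm c h3
    obtain ⟨z, hz, hz2⟩ := hhm _ h4
    have hx3 : F.o.pos (g⁻¹ * x) := by
      rcases hx2 with rfl | hx2
      · exact absurd hx.symm hc
      · exact hx2
    have hxB : g⁻¹ * x ∉ B := by
      intro h5
      rw [← QuotientGroup.eq] at h5
      exact hc (by rw [← hx, h5])
    have ha : F.o.pos (h⁻¹ * (g⁻¹ * x) * h) := by
      have := F.o.conj h⁻¹ hx3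
      rwa [inv_inv] at this
    have haB : h⁻¹ * (g⁻¹ * x) * h ∉ B := by
      intro h5
      apply hxB
      have := hBn.conj_mem _ h5 h
      rwa [show h * (h⁻¹ * (g⁻¹ * x) * h) * h⁻¹ = g⁻¹ * x by group] at this
    have hab : (h⁻¹ * (g⁻¹ * x) * h) * (h⁻¹ * z) ∈ B := by
      have h6 : ((g * h : G) : G ⧸ B) = ((x * z : G) : G ⧸ B) := by
        have h7 : ((x * z : G) : G ⧸ B) = (x : G ⧸ B) * (z : G ⧸ B) := QuotientGroup.mk_mul _ _ _
        rw [h7, hz, hx, mul_inv_cancel_left]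
      rw [QuotientGroup.eq] at h6
      rwa [show (g * h)⁻¹ * (x * z) = (h⁻¹ * (g⁻¹ * x) * h) * (h⁻¹ * z) by group] at h6
    rcases hz2 with rfl | hz2
    · rw [inv_mul_cancel, mul_one] at hab
      exact haB hab
    · refine haB (hB _ _ ha ?_ hab)
      change F.o.pos ((h⁻¹ * (g⁻¹ * x) * h)⁻¹ * ((h⁻¹ * (g⁻¹ * x) * h) * (h⁻¹ * z)))
      rwa [inv_mul_cancel_left]
  have h5 : csq F B u (g : G ⧸ B) * csq F B v ((g : G ⧸ B)⁻¹ * ((g * h : G) : G ⧸ B)) ≠ 0 := by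
    rw [QuotientGroup.mk_mul, inv_mul_cancel_left]
    exact mul_ne_zero hg hh
  by_cases h6 : (g : G ⧸ B) ∈ (cst_fin hN F B hB u v ((g * h : G) : G ⧸ B)).toFinset
  · rw [Finset.sum_eq_single_of_mem _ h6 fun c _ hcg => hc c hcg] at h1
    exact h5 h1
  · apply h6
    rw [Set.Finite.mem_toFinset]
    have e1 : ∀ (w : F.U) (hw : FinOn F B w) (c : G ⧸ B), csq F B w c ≠ 0 →
        ∃ a ∈ Function.support (F.co w), (a : G ⧸ B) = c := by
      intro w hw c hc
      rw [csq_eq F B w hw] at hc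
      obtain ⟨x, hx, -⟩ := Finset.exists_ne_zero_of_sum_ne_zero hc
      rw [Set.Finite.mem_toFinset] at hx
      exact ⟨x, hx.1, hx.2⟩
    refine ⟨e1 u hu _ hg, e1 v hv _ ?_⟩
    exact (mul_ne_zero_iff.1 h5).2

end

end Pool.Agent.RTF.H65
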